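import Pool.Agent.H75C.HY.TRG
import Pool.Agent.Helper36.HYB.B

/-!
# Exact arguments of a connective in the word of a formula (statement D1)
-/

set_option autoImplicit false
set_option synthInstance.maxSize 4000

namespace Pool.Agent.Helper19.TR

open Pool.Agent.NPC Pool.Agent.H75C.HY Pool.Agent.Helper36.HYB

variable {𝔅 : Base}

/-! ### Cutting -/

/-- What precedes the first mark `(4, j)` of level `0`. -/
def cut (j : ℕ) : ℕ → List Tok → List Tok
  | _, [] => []
  | l, t :: w =>
    if l = 0 ∧ t = (4, j) then []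
    else if t.1 = 3 ∨ t.1 = 6 ∨ t.1 = 7 then t :: cut j (l + 1) w
    else if t.1 = 5 then t :: cut j (l - 1) w
    else t :: cut j l w

theorem cut_up {j l : ℕ} {t : Tok} {w : List Tok} (h : t.1 = 3 ∨ t.1 = 6 ∨ t.1 = 7) :
    cut j l (t :: w) = t :: cut j (l + 1) w := by
  have h1 : ¬ (l = 0 ∧ t = (4, j)) := by
    rintro ⟨-, rfl⟩
    simp at h
  rw [cut, if_neg h1, if_pos h]

theorem cut_down {j l : ℕ} {t : Tok} {w : List Tok} (h : t.1 = 5) :
    cut j l (t :: w) = t :: cut j (l - 1) w := by
  have h1 : ¬ (l = 0 ∧ t = (4, j)) := by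
    rintro ⟨-, rfl⟩
    simp at h
  have h2 : ¬ (t.1 = 3 ∨ t.1 = 6 ∨ t.1 = 7) := by omega
  rw [cut, if_neg h1, if_neg h2, if_pos h]

theorem cut_skip {j l : ℕ} {t : Tok} {w : List Tok} (h : ¬ (l = 0 ∧ t = (4, j)))
    (h3 : t.1 ≠ 3) (h5 : t.1 ≠ 5) (h6 : t.1 ≠ 6) (h7 : t.1 ≠ 7) :
    cut j l (t :: w) = t :: cut j l w := by
  have h2 : ¬ (t.1 = 3 ∨ t.1 = 6 ∨ t.1 = 7) := by omega
  rw [cut, if_neg h, if_neg h2, if_neg h5]

theorem cut_atom {j l : ℕ} {t : Tok} {w : List Tok}
    (h3 : t.1 ≠ 3) (h4 : t.1 ≠ 4) (h5 : t.1 ≠ 5) (h6 : t.1 ≠ 6) (h7 : t.1 ≠ 7) :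
    cut j l (t :: w) = t :: cut j l w := by
  refine cut_skip ?_ h3 h5 h6 h7
  rintro ⟨-, rfl⟩
  exact h4 rfl

theorem cut_args {j l : ℕ} {n : ℕ} (W : Fin n → List Tok) (m : Fin n → ℕ)
    (h : ∀ i (s : List Tok), cut j (l + 1) (W i ++ s) = W i ++ cut j (l + 1) s) (s : List Tok) :
    cut j (l + 1) ((List.ofFn (fun i => W i ++ [((4, m i) : Tok)])).flatten ++ s) =
      (List.ofFn (fun i => W i ++ [((4, m i) : Tok)])).flatten ++ cut j (l + 1) s := by
  induction n with
  | zero => simp
  | succ n ih =>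
    rw [List.ofFn_succ, List.flatten_cons, List.append_assoc, List.append_assoc, h 0,
      List.singleton_append, cut_skip (by omega) (by simp) (by simp) (by simp) (by simp),
      ih (fun i => W i.succ) (fun i => m i.succ) (fun i => h i.succ)]
    simp

/-- Cutting goes through the word of a formula. -/
theorem cut_pr (j : ℕ) (φ : Form 𝔅) : ∀ (l : ℕ) (s : List Tok),
    cut j l (pr φ ++ s) = pr φ ++ cut j l s := by
  induction φ with
  | prop i => intro l s; exact cut_atom (by simp) (by simp) (by simp) (by simp) (by simp)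
  | nom i => intro l s; exact cut_atom (by simp) (by simp) (by simp) (by simp) (by simp)
  | var x => intro l s; exact cut_atom (by simp) (by simp) (by simp) (by simp) (by simp)
  | app b φ ih =>
    intro l s
    have e : ∀ s : List Tok, pr (Form.app b φ) ++ s = (3, 𝔅.idx b) ::
        ((List.ofFn (fun i => pr (φ i) ++ [((4, (i : ℕ)) : Tok)])).flatten ++ ((5, 0) :: s)) := by
      intro s
      rw [pr]
      simp
    rw [e, e, cut_up (by simp), cut_args (fun i => pr (φ i)) (fun i => (i : ℕ))
      (fun i s => ih i (l + 1) s), cut_down (by simp), Nat.add_sub_cancel]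
  | dia φ ih =>
    intro l s
    have e : ∀ s : List Tok, pr (Form.dia φ) ++ s = (6, 0) :: (pr φ ++ ((5, 1) :: s)) := by
      intro s
      rw [pr]
      simp
    rw [e, e, cut_up (by simp), ih, cut_down (by simp), Nat.add_sub_cancel]
  | box φ ih =>
    intro l s
    have e : ∀ s : List Tok, pr (Form.box φ) ++ s = (7, 0) :: (pr φ ++ ((5, 1) :: s)) := by
      intro s
      rw [pr]
      simp
    rw [e, e, cut_up (by simp), ih, cut_down (by simp), Nat.add_sub_cancel]
  | bind x φ ih =>
    intro l s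
    rw [pr, List.cons_append, cut_atom (by simp) (by simp) (by simp) (by simp) (by simp), ih,
      List.cons_append]
  | atNom x φ ih =>
    intro l s
    rw [pr, List.cons_append, cut_atom (by simp) (by simp) (by simp) (by simp) (by simp), ih,
      List.cons_append]
  | atVar x φ ih =>
    intro l s
    rw [pr, List.cons_append, cut_atom (by simp) (by simp) (by simp) (by simp) (by simp), ih,
      List.cons_append]

theorem cut_pr_mark (j : ℕ) (φ : Form 𝔅) (s : List Tok) :
    cut j 0 (pr φ ++ ((4, j) :: s)) = pr φ := by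
  rw [cut_pr, cut, if_pos ⟨rfl, rfl⟩, List.append_nil]

/-- The argument after the mark `m + i`, with the mark after it. -/
theorem fnd_arg' (n : ℕ) : ∀ (m : ℕ) (F : Fin (n + 1) → Form 𝔅) (i : Fin n) (s : List Tok),
    ∃ s' : List Tok, fnd (m + (i : ℕ)) 0 ((List.ofFn (fun k : Fin (n + 1) => pr (F k) ++
      [((4, m + (k : ℕ)) : Tok)])).flatten ++ s) =
        pr (F i.succ) ++ ((4, m + (i : ℕ) + 1) :: s') := by
  induction n with
  | zero => intro m F i; exact i.elim0
  | succ n ih =>
    intro m F i s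
    rw [List.ofFn_succ, List.flatten_cons, List.append_assoc, List.append_assoc, fnd_pr,
      List.singleton_append]
    refine Fin.cases ?_ (fun i => ?_) i
    · rw [fnd, if_pos ⟨rfl, by simp⟩, List.ofFn_succ, List.flatten_cons, List.append_assoc,
        List.append_assoc, List.singleton_append]
      exact ⟨_, rfl⟩
    · have hne : ¬ ((0 : ℕ) = 0 ∧ ((4, m + ((0 : Fin (n + 1 + 1)) : ℕ)) : Tok) =
          (4, m + ((i.succ : Fin (n + 1)) : ℕ))) := by
        rintro ⟨-, h⟩
        have h1 := (Prod.mk.inj h).2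
        rw [Fin.val_succ, Fin.val_zero] at h1
        omega
      rw [fnd_skip hne (by simp) (by simp) (by simp) (by simp)]
      obtain ⟨s', hs'⟩ := ih (m + 1) (fun k => F k.succ) i s
      refine ⟨s', ?_⟩
      have e1 : m + ((i.succ : Fin (n + 1)) : ℕ) = m + 1 + (i : ℕ) := by
        rw [Fin.val_succ]
        omega
      have e2 : ∀ k : Fin (n + 1), m + ((k.succ : Fin (n + 1 + 1)) : ℕ) = m + 1 + (k : ℕ) := by
        intro k
        rw [Fin.val_succ]
        omega
      simp only [e1, e2]
      exact hs'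

theorem sz_cut_le (j : ℕ) : ∀ (w : List Tok) (l : ℕ), sz (cut j l w) ≤ sz w := by
  intro w
  induction w with
  | nil => intro l; exact le_rfl
  | cons t w ih =>
    intro l
    have h0 : sz ([] : List Tok) ≤ sz (t :: w) := by
      rw [sz_list_cons]
      have : sz ([] : List Tok) ≤ sz w := by
        cases w with
        | nil => exact le_rfl
        | cons a l =>
          rw [sz_list_cons]
          have := sz_list_nil (α := Tok)
          omega
      omega
    have h1 : ∀ l, sz (t :: cut j l w) ≤ sz (t :: w) := by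
      intro l
      have := ih l
      rw [sz_list_cons, sz_list_cons]
      omega
    rw [cut]
    split_ifs
    · exact h0
    · exact h1 _
    · exact h1 _
    · exact h1 _

/-! ### The same as a fold -/

/-- One step: level, found, what precedes (in reverse). -/
def stc (j : ℕ) (s : ℕ × Bool × List Tok) (t : Tok) : ℕ × Bool × List Tok :=
  if s.2.1 = true then s
  else if s.1 = 0 ∧ t = (4, j) then (0, true, s.2.2)
  else if t.1 = 3 ∨ t.1 = 6 ∨ t.1 = 7 then (s.1 + 1, false, t :: s.2.2)
  else if t.1 = 5 then (s.1 - 1, false, t :: s.2.2)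
  else (s.1, false, t :: s.2.2)

theorem foldl_found' (j : ℕ) : ∀ (w : List Tok) (l : ℕ) (acc : List Tok),
    w.foldl (stc j) (l, true, acc) = (l, true, acc) := by
  intro w
  induction w with
  | nil => intro l acc; rfl
  | cons t w ih =>
    intro l acc
    rw [List.foldl_cons]
    have e : stc j (l, true, acc) t = (l, true, acc) := by simp [stc]
    rw [e, ih]

theorem foldl_cut (j : ℕ) : ∀ (w : List Tok) (l : ℕ) (acc : List Tok),
    (w.foldl (stc j) (l, false, acc)).2.2 = (cut j l w).reverse ++ acc := by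
  intro w
  induction w with
  | nil => intro l acc; rfl
  | cons t w ih =>
    intro l acc
    rw [List.foldl_cons, cut, stc]
    simp only [Bool.false_eq_true, if_false]
    split_ifs
    · rw [foldl_found']
      simp
    · rw [ih]; simp
    · rw [ih]; simp
    · rw [ih]; simp

/-- The size of the state. -/
theorem lev_state (j : ℕ) : ∀ (w : List Tok) (l : ℕ) (acc : List Tok),
    (w.foldl (stc j) (l, false, acc)).1 ≤ l + w.length := by
  intro w
  induction w with
  | nil => intro l acc; exact le_rfl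
  | cons t w ih =>
    intro l acc
    have h1 : (t :: w).length = w.length + 1 := rfl
    rw [List.foldl_cons, stc]
    simp only [Bool.false_eq_true, if_false]
    split_ifs
    · rw [foldl_found']
      omega
    · have := ih (l + 1) (t :: acc)
      omega
    · have := ih (l - 1) (t :: acc)
      omega
    · have := ih l (t :: acc)
      omega

theorem poly_stc : NPC.Poly (fun p : (List Tok × ℕ) × (ℕ × Bool × List Tok) × Tok =>
    stc p.1.2 p.2.1 p.2.2) := by
  unfold stc
  have hj : NPC.Poly (fun p : (List Tok × ℕ) × (ℕ × Bool × List Tok) × Tok => p.1.2) :=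
    NPC.Poly.snd (NPC.Poly.fst NPC.Poly.id)
  have hs : NPC.Poly (fun p : (List Tok × ℕ) × (ℕ × Bool × List Tok) × Tok => p.2.1) :=
    NPC.Poly.fst (NPC.Poly.snd NPC.Poly.id)
  have ht : NPC.Poly (fun p : (List Tok × ℕ) × (ℕ × Bool × List Tok) × Tok => p.2.2) :=
    NPC.Poly.snd (NPC.Poly.snd NPC.Poly.id)
  have hl := NPC.Poly.fst hs
  have hc := NPC.Poly.fst (NPC.Poly.snd hs)
  have hacc := NPC.Poly.snd (NPC.Poly.snd hs)
  have ek : ∀ n : ℕ, NPC.Poly (fun p : (List Tok × ℕ) × (ℕ × Bool × List Tok) × Tok =>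
      decide (p.2.2.1 = n)) := fun n =>
    NPC.Poly.decide_eq (NPC.Poly.fst ht) (NPC.Poly.const _)
  refine NPC.Poly.ite (NPC.Poly.decide_bool hc) hs ?_
  refine NPC.Poly.ite (NPC.Poly.decide_and (NPC.Poly.decide_eq hl (NPC.Poly.const _))
    (NPC.Poly.decide_eq ht (NPC.Poly.pair (NPC.Poly.const _) hj)))
    (NPC.Poly.pair (NPC.Poly.const _) (NPC.Poly.pair (NPC.Poly.const _) hacc)) ?_
  refine NPC.Poly.ite (NPC.Poly.decide_or (ek 3) (NPC.Poly.decide_or (ek 6) (ek 7)))
    (NPC.Poly.pair (NPC.Poly.add hl (NPC.Poly.const _))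
      (NPC.Poly.pair (NPC.Poly.const _) (NPC.Poly.cons ht hacc))) ?_
  refine NPC.Poly.ite (ek 5)
    (NPC.Poly.pair (NPC.Poly.sub hl (NPC.Poly.const _))
      (NPC.Poly.pair (NPC.Poly.const _) (NPC.Poly.cons ht hacc))) ?_
  exact NPC.Poly.pair hl (NPC.Poly.pair (NPC.Poly.const _) (NPC.Poly.cons ht hacc))

/-- What precedes the mark. -/
def cutF (w : List Tok) (j : ℕ) : List Tok := (w.foldl (stc j) (0, false, [])).2.2.reverse

theorem cutF_eq (w : List Tok) (j : ℕ) : cutF w j = cut j 0 w := by
  rw [cutF, foldl_cut, List.append_nil, List.reverse_reverse]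

theorem poly_cutF : NPC.Poly (fun p : List Tok × ℕ => cutF p.1 p.2) := by
  unfold cutF
  refine NPC.Poly.reverse (NPC.Poly.snd (NPC.Poly.snd ?_))
  refine NPC.Poly.foldl (F := fun (p : List Tok × ℕ) s t => stc p.2 s t)
    (NPC.Poly.fst NPC.Poly.id) (NPC.Poly.const _) poly_stc
    (Polynomial.C 6 * Polynomial.X + Polynomial.C 10) ?_
  intro p k _
  obtain ⟨l', c, acc, e⟩ : ∃ (l' : ℕ) (c : Bool) (acc : List Tok),
    (p.1.take k).foldl (stc p.2) (0, false, []) = (l', c, acc) := ⟨_, _, _, rfl⟩
  have e1 : l' ≤ (p.1.take k).length := by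
    have := lev_state p.2 (p.1.take k) 0 []
    rw [e] at this
    simpa using this
  have e2 : sz acc ≤ sz (p.1.take k) := by
    have := foldl_cut p.2 (p.1.take k) 0 []
    rw [e] at this
    simp only [List.append_nil] at this
    rw [this, sz_reverse]
    exact sz_cut_le _ _ _
  show sz ((p.1.take k).foldl (stc p.2) (0, false, [])) ≤ _
  rw [e]
  have h3 : sz (p.1.take k) ≤ sz p.1 := NPC.Poly.sz_take_le _ _
  have h5 : sz p = sz p.1 + sz p.2 + 1 := sz_pair p.1 p.2
  have h6 : (p.1.take k).length < sz (p.1.take k) := length_lt_sz _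
  have h7 : sz l' ≤ 4 * l' + 1 := (sz_nat_le l').trans (by
    have := NPC.Poly.size_le_self l'
    omega)
  have h8 := sz_bool_le c
  rw [sz_pair, sz_pair]
  simp only [Polynomial.eval_add, Polynomial.eval_mul, Polynomial.eval_C, Polynomial.eval_X]
  omega

/-- The argument number `i`, exactly. -/
def argE (w : List Tok) (i : ℕ) : List Tok := cutF (argAt w i) i

theorem poly_argE : NPC.Poly (fun p : List Tok × ℕ => argE p.1 p.2) :=
  poly_cutF.comp (NPC.Poly.pair poly_argAt (NPC.Poly.snd NPC.Poly.id))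

theorem sz_argE_le (w : List Tok) (i : ℕ) : sz (argE w i) ≤ sz w := by
  unfold argE
  rw [cutF_eq]
  exact (sz_cut_le _ _ _).trans (sz_argAt_le w i)

theorem argE_spec (b : 𝔅.B) (φ : Fin (𝔅.ar b) → Form 𝔅) (i : Fin (𝔅.ar b)) :
    argE (pr (.app b φ)) (i : ℕ) = pr (φ i) := by
  have e : (pr (Form.app b φ)).tail = (List.ofFn (fun i => pr (φ i) ++
      [((4, (i : ℕ)) : Tok)])).flatten ++ [(5, 0)] := by
    rw [pr]
    simp
  unfold argE argAt
  rw [e, cutF_eq]
  clear e
  generalize 𝔅.ar b = n at φ i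
  cases n with
  | zero => exact i.elim0
  | succ n =>
    refine Fin.cases ?_ (fun i => ?_) i
    · rw [if_pos (by simp), List.ofFn_succ, List.flatten_cons, List.append_assoc,
        List.append_assoc, List.singleton_append]
      exact cut_pr_mark _ _ _
    · rw [if_neg (by simp), foldl_fnd]
      obtain ⟨s', hs'⟩ := fnd_arg' n 0 φ i [(5, 0)]
      have e3 : fnd (((i.succ : Fin (n + 1)) : ℕ) - 1) 0 ((List.ofFn (fun i => pr (φ i) ++
          [((4, (i : ℕ)) : Tok)])).flatten ++ [(5, 0)]) =
          pr (φ i.succ) ++ ((4, ((i.succ : Fin (n + 1)) : ℕ)) :: s') := by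
        simpa using hs'
      rw [e3]
      exact cut_pr_mark _ _ _

/-- STATEMENT D1. -/
theorem d1 : Pool.Agent.H75C.HY.TR.D1 :=
  ⟨argE, poly_argE, sz_argE_le, fun _ b φ i => argE_spec b φ i⟩

end Pool.Agent.Helper19.TR
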